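import Mathlib
import Pool.Agent.H17.Fac4

namespace Pool.Agent.Results.MP_1d00e6_al.AllPrimePairs

/-- For every pair of distinct primes `p, q` there is a periodic, locally soluble, non-primary
`{p, q}`-group which is the product of two `p`-subgroups. -/
theorem result (p q : ℕ) (hp : p.Prime) (hq : q.Prime) (_hpq : p ≠ q) :
    ∃ (G : Type) (_ : Group G) (A B : Subgroup G),
      (∀ g : G, 0 < orderOf g ∧ ∀ r : ℕ, r.Prime → r ∣ orderOf g → r = p ∨ r = q) ∧
      (∀ H : Subgroup G, H.FG → Group.IsSolvable H) ∧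
      (∃ g : G, orderOf g = p) ∧ (∃ g : G, orderOf g = q) ∧
      IsPGroup p A ∧ IsPGroup p B ∧ (∀ g : G, ∃ a ∈ A, ∃ b ∈ B, g = a * b) :=
  Pool.Agent.H17.Fac.main p q hp hq

end Pool.Agent.Results.MP_1d00e6_al.AllPrimePairs
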